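import Mathlib

/-!
# The closed-loop cost matrix grows at least linearly with the decay rate

For `m < n` and every stable `M = A - B F` (`B` of size `n × m`),
`γ_decay(M) ≤ 4 n log(4n) ‖A‖² ‖X₀‖`.  The proof uses a unit vector `y` with `y^* B = 0`, for
which `f(t) = y^* e^{Mt} y` has `f' = y^* A e^{Mt} y`, and the Cayley-Hamilton theorem for
`e^{hM}`.  All norms are the operator norms induced by the Euclidean norm.
-/

open Matrix NormedSpace MeasureTheory
open scoped Matrix.Norms.L2Operator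

namespace Pool.Agent.Results.MP_cf5fc4_an.CostLowerBound

variable {n : ℕ}

/-- `exp M v = exp λ v` for an eigenvector. -/
theorem exp_mulVec (M : Matrix (Fin n) (Fin n) ℂ) (v : Fin n → ℂ) (l : ℂ) (h : M *ᵥ v = l • v) :
    NormedSpace.exp M *ᵥ v = Complex.exp l • v := by
  have hp : ∀ k : ℕ, (M ^ k) *ᵥ v = l ^ k • v := by
    intro k
    induction k with
    | zero => simp
    | succ k ih => rw [pow_succ, ← mulVec_mulVec, h, mulVec_smul, ih, smul_smul, pow_succ, mul_comm]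
  have h1 := NormedSpace.exp_series_hasSum_exp' (𝕂 := ℂ) M
  have h2 := NormedSpace.exp_series_hasSum_exp' (𝕂 := ℂ) l
  let L : Matrix (Fin n) (Fin n) ℂ →ₗ[ℂ] (Fin n → ℂ) :=
    { toFun := fun X => X *ᵥ v
      map_add' := fun X Y => add_mulVec X Y v
      map_smul' := fun c X => smul_mulVec c X v }
  have hL : Continuous L := L.continuous_of_finiteDimensional
  have h3 := h1.map L hL
  have h4 := h2.smul_const v
  rw [← Complex.exp_eq_exp_ℂ] at h4
  refine h3.unique ?_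
  convert h4 using 1
  funext k
  simp only [Function.comp, L, LinearMap.coe_mk, AddHom.coe_mk]
  rw [smul_mulVec, hp, smul_smul, smul_eq_mul]

/-- spectral mapping for the exponential. -/
theorem spectrum_exp (M : Matrix (Fin n) (Fin n) ℂ) (h : ℝ) (z : ℂ)
    (hz : z ∈ spectrum ℂ (NormedSpace.exp (h • M))) :
    ∃ l ∈ spectrum ℂ M, z = Complex.exp (h * l) := by
  rw [← Matrix.spectrum_toLin', ← Module.End.hasEigenvalue_iff_mem_spectrum] at hz
  set f := toLin' (NormedSpace.exp (h • M)) with hf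
  set g := toLin' M with hg
  have hcomm : Commute g f := by
    have hc : M * NormedSpace.exp (h • M) = NormedSpace.exp (h • M) * M :=
      ((Commute.refl M).smul_right h).exp_right
    change toLin' M ∘ₗ toLin' (NormedSpace.exp (h • M)) =
      toLin' (NormedSpace.exp (h • M)) ∘ₗ toLin' M
    rw [← Matrix.toLin'_mul, ← Matrix.toLin'_mul, hc]
  have hmaps : Set.MapsTo g (Module.End.eigenspace f z) (Module.End.eigenspace f z) :=
    Module.End.mapsTo_genEigenspace_of_comm hcomm.symm z 1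
  have : Nontrivial (Module.End.eigenspace f z) :=
    Submodule.nontrivial_iff_ne_bot.mpr hz
  obtain ⟨l, hl⟩ := Module.End.exists_eigenvalue (g.restrict hmaps)
  obtain ⟨⟨v, hvW⟩, hv⟩ := hl.exists_hasEigenvector
  have hgv : g v = l • v := by
    have := hv.apply_eq_smul
    exact congrArg Subtype.val this
  have hv0 : v ≠ 0 := fun h => hv.2 (by ext1; exact h)
  have hfv : f v = z • v := Module.End.mem_eigenspace_iff.mp hvW
  refine ⟨l, ?_, ?_⟩
  · rw [← Matrix.spectrum_toLin', ← Module.End.hasEigenvalue_iff_mem_spectrum]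
    exact Module.End.hasEigenvalue_of_hasEigenvector ⟨Module.End.mem_eigenspace_iff.mpr hgv, hv0⟩
  · have h1 := exp_mulVec (h • M) v (h * l) (by
      rw [smul_mulVec, show M *ᵥ v = l • v from hgv, ← smul_smul]; rfl)
    have h2 : z • v = Complex.exp (h * l) • v := by rw [← h1]; exact hfv.symm
    exact smul_left_injective ℂ hv0 h2

/-- Stable: all eigenvalues have negative real part. -/
def Stable (M : Matrix (Fin n) (Fin n) ℂ) : Prop := ∀ l ∈ spectrum ℂ M, l.re < 0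

/-- The cost matrix `X₀ = ∫_0^∞ e^{M^* t} e^{M t} dt` (the integrand is integrable for stable `M`,
see `integrable_cost`). -/
noncomputable def X0 (M : Matrix (Fin n) (Fin n) ℂ) : Matrix (Fin n) (Fin n) ℂ :=
  ∫ t in Set.Ioi (0 : ℝ), NormedSpace.exp (t • Mᴴ) * NormedSpace.exp (t • M)

theorem cont_exp (M : Matrix (Fin n) (Fin n) ℂ) :
    Continuous fun t : ℝ => NormedSpace.exp (t • M) :=
  (differentiable_exp_smul_const ℝ M).continuous

theorem exp_add_smul (M : Matrix (Fin n) (Fin n) ℂ) (s t : ℝ) :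
    NormedSpace.exp ((s + t) • M) = NormedSpace.exp (s • M) * NormedSpace.exp (t • M) := by
  rw [add_smul, Matrix.exp_add_of_commute]
  exact ((Commute.refl M).smul_left s).smul_right t

theorem exp_nat_smul (M : Matrix (Fin n) (Fin n) ℂ) (s : ℝ) (k : ℕ) :
    NormedSpace.exp ((k * s) • M) = NormedSpace.exp (s • M) ^ k := by
  rw [← Matrix.exp_nsmul]
  congr 1
  rw [mul_smul, Nat.cast_smul_eq_nsmul]

theorem pow_small (hn : 0 < n) (M : Matrix (Fin n) (Fin n) ℂ) (hM : Stable M) :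
    ∃ k : ℕ, 1 ≤ k ∧ ‖NormedSpace.exp ((k : ℝ) • M)‖ < 1 := by
  have : Nontrivial (Matrix (Fin n) (Fin n) ℂ) := by
    have : Nonempty (Fin n) := ⟨⟨0, hn⟩⟩
    infer_instance
  have h1 : spectralRadius ℂ (NormedSpace.exp M) < 1 := by
    have := spectrum.spectralRadius_lt_of_forall_lt (NormedSpace.exp M) (r := 1) ?_
    · simpa using this
    · intro z hz
      rw [← one_smul ℝ M] at hz
      obtain ⟨l, hl, rfl⟩ := spectrum_exp M 1 z hz
      rw [← NNReal.coe_lt_coe, coe_nnnorm, Complex.norm_exp, NNReal.coe_one, Real.exp_lt_one_iff]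
      simpa using hM l hl
  have h2 := spectrum.pow_norm_pow_one_div_tendsto_nhds_spectralRadius (NormedSpace.exp M)
  have h3 := (h2.eventually (gt_mem_nhds h1)).and (Filter.eventually_ge_atTop 1)
  obtain ⟨k, hk, hk1⟩ := h3.exists
  refine ⟨k, hk1, ?_⟩
  rw [show ((k : ℝ)) = k * 1 by ring, exp_nat_smul, one_smul]
  rw [ENNReal.ofReal_lt_one] at hk
  by_contra hge
  push Not at hge
  exact absurd hk (not_lt.mpr (Real.one_le_rpow hge (by positivity)))

theorem exp_decay (hn : 0 < n) (M : Matrix (Fin n) (Fin n) ℂ) (hM : Stable M) :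
    ∃ C b : ℝ, 0 < C ∧ 0 < b ∧ ∀ t : ℝ, 0 ≤ t → ‖NormedSpace.exp (t • M)‖ ≤ C * Real.exp (-(b * t)) := by
  obtain ⟨k, hk, hlt⟩ := pow_small hn M hM
  have hk0 : (0 : ℝ) < k := by exact_mod_cast hk
  obtain ⟨S, hS⟩ := (isCompact_Icc (a := (0 : ℝ)) (b := k)).exists_bound_of_continuousOn
    (cont_exp M).continuousOn
  set r : ℝ := max (1 / 2) ‖NormedSpace.exp ((k : ℝ) • M)‖ with hr
  have hr0 : 0 < r := lt_of_lt_of_le (by norm_num) (le_max_left _ _)
  have hr1 : r < 1 := max_lt (by norm_num) hlt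
  have hlog : Real.log r < 0 := Real.log_neg hr0 hr1
  have hS0 : 0 ≤ S := (norm_nonneg _).trans (hS 0 ⟨le_rfl, hk0.le⟩)
  refine ⟨(S + 1) / r, -Real.log r / k, by positivity, div_pos (neg_pos.mpr hlog) hk0, ?_⟩
  intro t ht
  set j := ⌊t / k⌋₊ with hj
  have hj1 : (j : ℝ) * k ≤ t := by
    have := Nat.floor_le (div_nonneg ht hk0.le)
    rwa [le_div_iff₀ hk0] at this
  have hj2 : t < (j + 1) * k := by
    have := Nat.lt_floor_add_one (t / k)
    rwa [div_lt_iff₀ hk0] at this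
  have e1 : t • M = ((j * k : ℝ) + (t - j * k)) • M := by congr 1; ring
  rw [e1, exp_add_smul, exp_nat_smul]
  have h1 : ‖NormedSpace.exp ((t - j * k) • M)‖ ≤ S + 1 :=
    (hS _ ⟨by linarith, by nlinarith⟩).trans (by linarith)
  have h2 : ‖NormedSpace.exp ((k : ℝ) • M) ^ j‖ ≤ r ^ j := by
    rcases Nat.eq_zero_or_pos j with h0 | h0
    · have : Nonempty (Fin n) := ⟨⟨0, hn⟩⟩
      rw [h0, pow_zero, pow_zero, norm_one]
    · exact (norm_pow_le' _ h0).trans (pow_le_pow_left₀ (norm_nonneg _) (le_max_right _ _) _)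
  have h3 : r ^ j ≤ Real.exp (-(-Real.log r / k * t)) / r := by
    rw [le_div_iff₀ hr0, ← pow_succ, ← Real.exp_log hr0, ← Real.exp_nat_mul]
    rw [Real.exp_log hr0, Real.exp_le_exp]
    have : t / k ≤ ((j + 1 : ℕ) : ℝ) := by
      rw [div_le_iff₀ hk0]; push_cast; exact hj2.le
    have h5 : -(-Real.log r / k * t) = (t / k) * Real.log r := by ring
    rw [h5]
    nlinarith
  calc ‖NormedSpace.exp ((k : ℝ) • M) ^ j * NormedSpace.exp ((t - j * k) • M)‖
      ≤ ‖NormedSpace.exp ((k : ℝ) • M) ^ j‖ * ‖NormedSpace.exp ((t - j * k) • M)‖ := norm_mul_le _ _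
    _ ≤ (Real.exp (-(-Real.log r / k * t)) / r) * (S + 1) :=
        mul_le_mul (h2.trans h3) h1 (norm_nonneg _) (by positivity)
    _ = (S + 1) / r * Real.exp (-(-Real.log r / k * t)) := by ring

theorem integrable_cost (hn : 0 < n) (M : Matrix (Fin n) (Fin n) ℂ) (hM : Stable M) :
    IntegrableOn (fun t : ℝ => NormedSpace.exp (t • Mᴴ) * NormedSpace.exp (t • M))
      (Set.Ioi (0 : ℝ)) := by
  obtain ⟨C, b, hC, hb, h⟩ := exp_decay hn M hM
  have hint : IntegrableOn (fun t : ℝ => C ^ 2 * Real.exp (-(2 * b) * t)) (Set.Ioi 0) :=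
    (exp_neg_integrableOn_Ioi 0 (by positivity)).const_mul _
  refine hint.mono' ((cont_exp Mᴴ).mul (cont_exp M)).aestronglyMeasurable ?_
  refine (ae_restrict_iff' measurableSet_Ioi).mpr (Filter.Eventually.of_forall fun t ht => ?_)
  have ht' : 0 ≤ t := le_of_lt ht
  have e1 : NormedSpace.exp (t • Mᴴ) = (NormedSpace.exp (t • M))ᴴ := by
    rw [← Matrix.exp_conjTranspose, conjTranspose_smul]
    simp
  rw [e1, l2_opNorm_conjTranspose_mul_self]
  calc ‖NormedSpace.exp (t • M)‖ * ‖NormedSpace.exp (t • M)‖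
      ≤ (C * Real.exp (-(b * t))) * (C * Real.exp (-(b * t))) :=
        mul_le_mul (h t ht') (h t ht') (norm_nonneg _) (by positivity)
    _ = C ^ 2 * Real.exp (-(2 * b) * t) := by
        rw [show -(2 * b) * t = -(b * t) + -(b * t) by ring, Real.exp_add]; ring

/-- The functional `Z ↦ ⟨y, Z y⟩`. -/
noncomputable def phi (y : EuclideanSpace ℂ (Fin n)) : Matrix (Fin n) (Fin n) ℂ →ₗ[ℂ] ℂ where
  toFun Z := inner ℂ y (toEuclideanCLM (n := Fin n) (𝕜 := ℂ) Z y)
  map_add' Z W := by rw [map_add, _root_.add_apply, inner_add_right]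
  map_smul' c Z := by
    rw [map_smul, _root_.smul_apply, inner_smul_right, RingHom.id_apply, smul_eq_mul]

theorem phi_apply (y : EuclideanSpace ℂ (Fin n)) (Z : Matrix (Fin n) (Fin n) ℂ) :
    phi y Z = inner ℂ y (toEuclideanCLM (n := Fin n) (𝕜 := ℂ) Z y) := rfl

/-- as a continuous linear map -/
noncomputable def phiL (y : EuclideanSpace ℂ (Fin n)) : Matrix (Fin n) (Fin n) ℂ →L[ℂ] ℂ :=
  ⟨phi y, (phi y).continuous_of_finiteDimensional⟩

theorem phi_norm (y : EuclideanSpace ℂ (Fin n)) (hy : ‖y‖ = 1) (Z : Matrix (Fin n) (Fin n) ℂ) :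
    ‖phi y Z‖ ≤ ‖Z‖ := by
  rw [phi_apply]
  calc ‖inner ℂ y (toEuclideanCLM (n := Fin n) (𝕜 := ℂ) Z y)‖
      ≤ ‖y‖ * ‖toEuclideanCLM (n := Fin n) (𝕜 := ℂ) Z y‖ := norm_inner_le_norm _ _
    _ ≤ ‖y‖ * (‖toEuclideanCLM (n := Fin n) (𝕜 := ℂ) Z‖ * ‖y‖) :=
        mul_le_mul_of_nonneg_left (ContinuousLinearMap.le_opNorm _ _) (norm_nonneg _)
    _ = ‖Z‖ := by rw [hy, l2_opNorm_toEuclideanCLM]; ring

theorem phi_adj (y : EuclideanSpace ℂ (Fin n)) (Z W : Matrix (Fin n) (Fin n) ℂ) :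
    phi y (Z * W) = inner ℂ (toEuclideanCLM (n := Fin n) (𝕜 := ℂ) Zᴴ y)
      (toEuclideanCLM (n := Fin n) (𝕜 := ℂ) W y) := by
  rw [phi_apply, map_mul]
  change inner ℂ y (toEuclideanCLM (n := Fin n) (𝕜 := ℂ) Z
    (toEuclideanCLM (n := Fin n) (𝕜 := ℂ) W y)) = _
  rw [← star_eq_conjTranspose, map_star, ContinuousLinearMap.star_eq_adjoint,
    ContinuousLinearMap.adjoint_inner_left]

theorem phi_sq (y : EuclideanSpace ℂ (Fin n)) (Z : Matrix (Fin n) (Fin n) ℂ) :
    phi y (Zᴴ * Z) = ((‖toEuclideanCLM (n := Fin n) (𝕜 := ℂ) Z y‖ ^ 2 : ℝ) : ℂ) := by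
  rw [phi_adj, conjTranspose_conjTranspose, inner_self_eq_norm_sq_to_K]
  push_cast
  rfl

/-- `∫_0^T ‖e^{tM} y‖² dt ≤ ‖X₀‖`. -/
theorem int_le (hn : 0 < n) (M : Matrix (Fin n) (Fin n) ℂ) (hM : Stable M)
    (y : EuclideanSpace ℂ (Fin n)) (hy : ‖y‖ = 1) (T : ℝ) (hT : 0 ≤ T) :
    ∫ t in (0 : ℝ)..T, ‖toEuclideanCLM (n := Fin n) (𝕜 := ℂ) (NormedSpace.exp (t • M)) y‖ ^ 2 ≤
      ‖X0 M‖ := by
  have hi := integrable_cost hn M hM
  have h1 : phi y (X0 M) = ∫ t in Set.Ioi (0 : ℝ),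
      phi y (NormedSpace.exp (t • Mᴴ) * NormedSpace.exp (t • M)) :=
    ((phiL y).integral_comp_comm hi).symm
  have e1 : ∀ t : ℝ, phi y (NormedSpace.exp (t • Mᴴ) * NormedSpace.exp (t • M)) =
      ((‖toEuclideanCLM (n := Fin n) (𝕜 := ℂ) (NormedSpace.exp (t • M)) y‖ ^ 2 : ℝ) : ℂ) := by
    intro t
    have e2 : NormedSpace.exp (t • Mᴴ) = (NormedSpace.exp (t • M))ᴴ := by
      rw [← Matrix.exp_conjTranspose, conjTranspose_smul]
      simp
    rw [e2, phi_sq]
  simp only [e1] at h1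
  rw [integral_complex_ofReal] at h1
  have hi2 : IntegrableOn (fun t : ℝ =>
      ‖toEuclideanCLM (n := Fin n) (𝕜 := ℂ) (NormedSpace.exp (t • M)) y‖ ^ 2) (Set.Ioi (0 : ℝ)) := by
    have := ((phiL y).integrable_comp hi).re
    refine this.congr (Filter.Eventually.of_forall fun t => ?_)
    change RCLike.re (phi y (NormedSpace.exp (t • Mᴴ) * NormedSpace.exp (t • M))) = _
    rw [e1]
    exact RCLike.ofReal_re _
  have h2 : ∫ t in Set.Ioi (0 : ℝ),
      ‖toEuclideanCLM (n := Fin n) (𝕜 := ℂ) (NormedSpace.exp (t • M)) y‖ ^ 2 ≤ ‖X0 M‖ := by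
    refine le_trans ?_ (phi_norm y hy (X0 M))
    rw [h1]
    refine le_trans (le_abs_self _) (le_of_eq ?_)
    rw [Complex.norm_real, Real.norm_eq_abs]
  refine le_trans ?_ h2
  rw [intervalIntegral.integral_of_le hT]
  exact setIntegral_mono_set hi2 (Filter.Eventually.of_forall fun t => by positivity)
    (Filter.Eventually.of_forall fun t (ht : t ∈ Set.Ioc 0 T) => ht.1)

/-- `|f(t) - 1| ≤ ‖A‖ (c t + ‖X₀‖ / c) / 2` for `f(t) = ⟨y, e^{tM} y⟩`. -/
theorem f_near_one (hn : 0 < n) (M A : Matrix (Fin n) (Fin n) ℂ) (hM : Stable M)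
    (y : EuclideanSpace ℂ (Fin n)) (hy : ‖y‖ = 1)
    (hMA : toEuclideanCLM (n := Fin n) (𝕜 := ℂ) Mᴴ y = toEuclideanCLM (n := Fin n) (𝕜 := ℂ) Aᴴ y)
    (c : ℝ) (hc : 0 < c) (T : ℝ) (hT : 0 ≤ T) :
    ‖phi y (NormedSpace.exp (T • M)) - 1‖ ≤ ‖A‖ * (c * T + ‖X0 M‖ / c) / 2 := by
  have hder : ∀ t ∈ Set.uIcc (0 : ℝ) T, HasDerivAt (fun s : ℝ => phi y (NormedSpace.exp (s • M)))
      (phi y (M * NormedSpace.exp (t • M))) t := by
    intro t _
    have := hasDerivAt_exp_smul_const' (𝕂 := ℝ) M t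
    exact ((phiL y).restrictScalars ℝ).hasFDerivAt.comp_hasDerivAt t this
  have hcont : Continuous fun t : ℝ => phi y (M * NormedSpace.exp (t • M)) :=
    (phiL y).continuous.comp (continuous_const.mul (cont_exp M))
  have hft := intervalIntegral.integral_eq_sub_of_hasDerivAt hder (hcont.intervalIntegrable 0 T)
  have h0 : phi y (NormedSpace.exp ((0 : ℝ) • M)) = 1 := by
    rw [zero_smul, NormedSpace.exp_zero, phi_apply, map_one]
    change inner ℂ y y = 1
    rw [inner_self_eq_norm_sq_to_K, hy]; simp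
  rw [h0] at hft
  rw [← hft]
  have hbd : ∀ t : ℝ, ‖phi y (M * NormedSpace.exp (t • M))‖ ≤ ‖A‖ / 2 *
      (c + ‖toEuclideanCLM (n := Fin n) (𝕜 := ℂ) (NormedSpace.exp (t • M)) y‖ ^ 2 / c) := by
    intro t
    rw [phi_adj, hMA]
    set w := ‖toEuclideanCLM (n := Fin n) (𝕜 := ℂ) (NormedSpace.exp (t • M)) y‖ with hw
    have h1 : ‖toEuclideanCLM (n := Fin n) (𝕜 := ℂ) Aᴴ y‖ ≤ ‖A‖ := by
      refine (ContinuousLinearMap.le_opNorm _ _).trans ?_
      rw [hy, mul_one, l2_opNorm_toEuclideanCLM, l2_opNorm_conjTranspose]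
    have h2 : w ≤ (c + w ^ 2 / c) / 2 := by
      rw [le_div_iff₀ (by norm_num : (0 : ℝ) < 2)]
      have : 0 ≤ (c - w) ^ 2 / c := by positivity
      have e : (c - w) ^ 2 / c = c + w ^ 2 / c - w * 2 := by field_simp; ring
      linarith
    calc _ ≤ ‖toEuclideanCLM (n := Fin n) (𝕜 := ℂ) Aᴴ y‖ * w := norm_inner_le_norm _ _
      _ ≤ ‖A‖ * ((c + w ^ 2 / c) / 2) := mul_le_mul h1 h2 (norm_nonneg _) (norm_nonneg _)
      _ = ‖A‖ / 2 * (c + w ^ 2 / c) := by ring
  have hcont2 : Continuous fun t : ℝ =>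
      ‖toEuclideanCLM (n := Fin n) (𝕜 := ℂ) (NormedSpace.exp (t • M)) y‖ ^ 2 := by
    have h3 : Continuous fun t : ℝ => phi y (NormedSpace.exp (t • Mᴴ) * NormedSpace.exp (t • M)) :=
      (phiL y).continuous.comp ((cont_exp Mᴴ).mul (cont_exp M))
    refine (Complex.continuous_re.comp h3).congr fun t => ?_
    have e2 : NormedSpace.exp (t • Mᴴ) = (NormedSpace.exp (t • M))ᴴ := by
      rw [← Matrix.exp_conjTranspose, conjTranspose_smul]
      simp
    simp only [Function.comp]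
    rw [e2, phi_sq, Complex.ofReal_re]
  have h4 : ‖∫ t in (0 : ℝ)..T, phi y (M * NormedSpace.exp (t • M))‖ ≤
      ∫ t in (0 : ℝ)..T, ‖A‖ / 2 *
      (c + ‖toEuclideanCLM (n := Fin n) (𝕜 := ℂ) (NormedSpace.exp (t • M)) y‖ ^ 2 / c) :=
    intervalIntegral.norm_integral_le_of_norm_le hT (Filter.Eventually.of_forall fun t _ => hbd t)
      ((continuous_const.mul (continuous_const.add (hcont2.div_const c))).intervalIntegrable 0 T)
  refine h4.trans ?_
  rw [intervalIntegral.integral_const_mul, intervalIntegral.integral_add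
    (continuous_const.intervalIntegrable 0 T) ((hcont2.div_const c).intervalIntegrable 0 T),
    intervalIntegral.integral_div, intervalIntegral.integral_const, sub_zero, smul_eq_mul]
  have h5 := int_le hn M hM y hy T hT
  have h6 : (∫ t in (0 : ℝ)..T,
      ‖toEuclideanCLM (n := Fin n) (𝕜 := ℂ) (NormedSpace.exp (t • M)) y‖ ^ 2) / c ≤ ‖X0 M‖ / c :=
    div_le_div_of_nonneg_right h5 hc.le
  calc _ ≤ ‖A‖ / 2 * (T * c + ‖X0 M‖ / c) :=
        mul_le_mul_of_nonneg_left (by linarith) (by positivity)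
    _ = ‖A‖ * (c * T + ‖X0 M‖ / c) / 2 := by ring

/-- Cayley-Hamilton estimate. -/
theorem ch_bound (M : Matrix (Fin n) (Fin n) ℂ) (y : EuclideanSpace ℂ (Fin n)) (h q D : ℝ)
    (hq : 0 ≤ q) (hspec : ∀ z ∈ spectrum ℂ (NormedSpace.exp (h • M)), ‖z‖ ≤ q)
    (hD : ∀ j : ℕ, j < n → ‖phi y (NormedSpace.exp ((j * h : ℝ) • M))‖ ≤ D) :
    ‖phi y (NormedSpace.exp ((n * h : ℝ) • M))‖ ≤ ((1 + q) ^ n - 1) * D := by
  set Z := NormedSpace.exp (h • M) with hZ
  have hdeg : Z.charpoly.natDegree = n := by simp [Matrix.charpoly_natDegree_eq_dim]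
  have hch := Matrix.aeval_self_charpoly Z
  rw [Polynomial.aeval_eq_sum_range, hdeg, Finset.sum_range_succ] at hch
  have hmonic := Z.charpoly_monic
  have hlead : Z.charpoly.coeff n = 1 := by
    have := hmonic.coeff_natDegree
    rwa [hdeg] at this
  rw [hlead, one_smul] at hch
  have e1 : Z ^ n = -∑ j ∈ Finset.range n, Z.charpoly.coeff j • Z ^ j := by
    rw [eq_neg_iff_add_eq_zero, add_comm]; exact hch
  have hcoeff : ∀ j ∈ Finset.range n, ‖Z.charpoly.coeff j‖ ≤ q ^ (n - j) * n.choose j := by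
    intro j _
    have := Polynomial.coeff_le_of_roots_le (p := Z.charpoly) (f := RingHom.id ℂ) (B := q) j hmonic
      (IsAlgClosed.splits _) (by
        intro z hz
        rw [Polynomial.map_id] at hz
        have hr := (Polynomial.mem_roots hmonic.ne_zero).mp hz
        exact hspec z ((Matrix.mem_spectrum_iff_isRoot_charpoly).mpr hr))
    rw [Polynomial.map_id, hdeg] at this
    exact this
  rw [exp_nat_smul, e1, map_neg, norm_neg, map_sum]
  refine (norm_sum_le _ _).trans ?_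
  have h2 : ∀ j ∈ Finset.range n, ‖phi y (Z.charpoly.coeff j • Z ^ j)‖ ≤
      (q ^ (n - j) * n.choose j) * D := by
    intro j hj
    rw [map_smul, smul_eq_mul, norm_mul, hZ, ← exp_nat_smul]
    exact mul_le_mul (hcoeff j hj) (hD j (Finset.mem_range.mp hj)) (norm_nonneg _) (by positivity)
  refine (Finset.sum_le_sum h2).trans (le_of_eq ?_)
  rw [← Finset.sum_mul]
  congr 1
  have h3 := add_pow (1 : ℝ) q n
  rw [Finset.sum_range_succ] at h3
  rw [h3]
  simp

/-- The decay rate `min {-Re λ}` (for `n ≥ 1` the spectrum is finite and nonempty, so that the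
infimum is a minimum). -/
noncomputable def decay (M : Matrix (Fin n) (Fin n) ℂ) : ℝ :=
  sInf ((fun l : ℂ => -l.re) '' spectrum ℂ M)

theorem exists_y {m : ℕ} (hmn : m < n) (B : Matrix (Fin n) (Fin m) ℂ) :
    ∃ y : EuclideanSpace ℂ (Fin n), ‖y‖ = 1 ∧ Bᴴ *ᵥ (WithLp.ofLp y) = 0 := by
  have h : LinearMap.ker (toLin' Bᴴ) ≠ ⊥ := by
    apply LinearMap.ker_ne_bot_of_finrank_lt
    simpa using hmn
  obtain ⟨w, hw, hw0⟩ := (Submodule.ne_bot_iff _).mp h
  set w' : EuclideanSpace ℂ (Fin n) := WithLp.toLp 2 w with hw'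
  have hne : w' ≠ 0 := by
    intro h0
    apply hw0
    have := congrArg WithLp.ofLp h0
    simpa [hw'] using this
  have hn0 : ‖w'‖ ≠ 0 := norm_ne_zero_iff.mpr hne
  refine ⟨((‖w'‖⁻¹ : ℝ) : ℂ) • w', ?_, ?_⟩
  · rw [norm_smul, Complex.norm_real, norm_inv, norm_norm, inv_mul_cancel₀ hn0]
  · rw [WithLp.ofLp_smul, mulVec_smul]
    have : Bᴴ *ᵥ w = 0 := hw
    rw [show WithLp.ofLp w' = w from rfl, this, smul_zero]

theorem main_bound {m : ℕ} (hmn : m < n) (A : Matrix (Fin n) (Fin n) ℂ)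
    (B : Matrix (Fin n) (Fin m) ℂ) (F : Matrix (Fin m) (Fin n) ℂ) (hM : Stable (A - B * F)) :
    decay (A - B * F) ≤ 4 * n * Real.log (4 * n) * ‖A‖ ^ 2 * ‖X0 (A - B * F)‖ := by
  set M := A - B * F with hMdef
  have hn : 0 < n := by omega
  have hn1 : (1 : ℝ) ≤ n := by exact_mod_cast hn
  have hlog : 0 < Real.log (4 * n) := Real.log_pos (by linarith)
  rcases le_or_gt (decay M) 0 with hγ | hγ
  · exact hγ.trans (by positivity)
  set γ := decay M with hγdef
  obtain ⟨y, hy, hyB⟩ := exists_y hmn B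
  have hMA : toEuclideanCLM (n := Fin n) (𝕜 := ℂ) Mᴴ y =
      toEuclideanCLM (n := Fin n) (𝕜 := ℂ) Aᴴ y := by
    have e : Mᴴ = Aᴴ - Fᴴ * Bᴴ := by rw [hMdef, conjTranspose_sub, conjTranspose_mul]
    have h1 : Mᴴ *ᵥ (WithLp.ofLp y) = Aᴴ *ᵥ (WithLp.ofLp y) := by
      rw [e, sub_mulVec, ← mulVec_mulVec, hyB, mulVec_zero, sub_zero]
    have h2 : ∀ Z : Matrix (Fin n) (Fin n) ℂ, toEuclideanCLM (n := Fin n) (𝕜 := ℂ) Z y =
        WithLp.toLp 2 (Z *ᵥ WithLp.ofLp y) := fun Z => rfl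
    rw [h2, h2, h1]
  set h := Real.log (4 * n) / γ with hh
  have hh0 : 0 < h := div_pos hlog hγ
  set X := ‖X0 M‖ with hX
  have hX0 : 0 ≤ X := norm_nonneg _
  have hspec : ∀ z ∈ spectrum ℂ (NormedSpace.exp (h • M)), ‖z‖ ≤ 1 / (4 * n) := by
    intro z hz
    obtain ⟨l, hl, rfl⟩ := spectrum_exp M h z hz
    have hle : γ ≤ -l.re := by
      refine csInf_le ⟨0, ?_⟩ ⟨l, hl, rfl⟩
      rintro _ ⟨l', hl', rfl⟩
      have := hM l' hl'
      change 0 ≤ -l'.re
      linarith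
    rw [Complex.norm_exp]
    have e2 : ((h : ℂ) * l).re = h * l.re := by simp
    rw [e2]
    have e3 : h * l.re ≤ -Real.log (4 * n) := by
      have : h * γ = Real.log (4 * n) := by rw [hh]; field_simp
      nlinarith
    calc Real.exp (h * l.re) ≤ Real.exp (-Real.log (4 * n)) := Real.exp_le_exp.mpr e3
      _ = 1 / (4 * n) := by rw [Real.exp_neg, Real.exp_log (by positivity), one_div]
  have hq : (1 + 1 / (4 * (n : ℝ))) ^ n - 1 ≤ 1 / 3 := by
    have h1 : (1 + 1 / (4 * (n : ℝ))) ^ n ≤ Real.exp (1 / 4) := by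
      calc (1 + 1 / (4 * (n : ℝ))) ^ n ≤ (Real.exp (1 / (4 * (n : ℝ)))) ^ n := by
            apply pow_le_pow_left₀ (by positivity)
            have := Real.add_one_le_exp (1 / (4 * (n : ℝ)))
            linarith
        _ = Real.exp (1 / 4) := by
            rw [← Real.exp_nat_mul]; congr 1; field_simp
    have h2 : (3 / 4 : ℝ) ≤ Real.exp (-(1 / 4)) := by
      have := Real.one_sub_le_exp_neg (1 / 4)
      linarith
    have h3 : Real.exp (1 / 4) * Real.exp (-(1 / 4)) = 1 := by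
      rw [← Real.exp_add]; norm_num
    have h4 : Real.exp (1 / 4) ≤ 4 / 3 := by
      have h5 := Real.exp_pos (1 / 4)
      nlinarith
    linarith
  have key : ∀ c : ℝ, 0 < c → 1 / 2 ≤ ‖A‖ * (c * (n * h) + X / c) / 2 := by
    intro c hc
    set δ := ‖A‖ * (c * (n * h) + X / c) / 2 with hδ
    have hδj : ∀ j : ℕ, j ≤ n → ‖phi y (NormedSpace.exp ((j * h : ℝ) • M)) - 1‖ ≤ δ := by
      intro j hj
      refine (f_near_one hn M A hM y hy hMA c hc (j * h) (by positivity)).trans ?_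
      rw [hδ]
      have hj' : (j : ℝ) ≤ n := by exact_mod_cast hj
      gcongr
    have hD : ∀ j : ℕ, j < n → ‖phi y (NormedSpace.exp ((j * h : ℝ) • M))‖ ≤ 1 + δ := by
      intro j hj
      have h1 := hδj j hj.le
      calc ‖phi y (NormedSpace.exp ((j * h : ℝ) • M))‖
          = ‖1 + (phi y (NormedSpace.exp ((j * h : ℝ) • M)) - 1)‖ := by congr 1; ring
        _ ≤ ‖(1 : ℂ)‖ + ‖phi y (NormedSpace.exp ((j * h : ℝ) • M)) - 1‖ := norm_add_le _ _
        _ ≤ 1 + δ := by rw [norm_one]; linarith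
    have hch := ch_bound M y h (1 / (4 * n)) (1 + δ) (by positivity) hspec hD
    have hlow : 1 - δ ≤ ‖phi y (NormedSpace.exp ((n * h : ℝ) • M))‖ := by
      have h1 := hδj n le_rfl
      have h2 : ‖(1 : ℂ)‖ ≤ ‖phi y (NormedSpace.exp ((n * h : ℝ) • M))‖ +
          ‖phi y (NormedSpace.exp ((n * h : ℝ) • M)) - 1‖ := by
        calc ‖(1 : ℂ)‖ = ‖phi y (NormedSpace.exp ((n * h : ℝ) • M)) -
              (phi y (NormedSpace.exp ((n * h : ℝ) • M)) - 1)‖ := by congr 1; ring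
          _ ≤ _ := norm_sub_le _ _
      rw [norm_one] at h2
      linarith
    have hδ0 : 0 ≤ 1 + δ := (norm_nonneg _).trans (hD 0 hn)
    nlinarith
  have hA : 0 < ‖A‖ := by
    rcases (norm_nonneg A).eq_or_lt with h0 | h0
    · exfalso
      have := key 1 one_pos
      rw [← h0] at this
      norm_num at this
    · exact h0
  have k2 := key (1 / (2 * ‖A‖ * (n * h))) (by positivity)
  have e5 : ‖A‖ * (1 / (2 * ‖A‖ * (n * h)) * (n * h) + X / (1 / (2 * ‖A‖ * (n * h)))) / 2 =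
      1 / 4 + ‖A‖ ^ 2 * n * h * X := by
    field_simp
    ring
  rw [e5] at k2
  have e6 : γ = Real.log (4 * n) / h := by rw [hh]; field_simp
  rw [e6, div_le_iff₀ hh0]
  nlinarith [mul_pos hlog hh0]

/-- **Full answer to Q1 and Q2 (affirmative), with an explicit `G`.** -/
theorem result (n m : ℕ) (hmn : m < n) (A : Matrix (Fin n) (Fin n) ℂ) :
    (∀ (B : Matrix (Fin n) (Fin m) ℂ) (F : Matrix (Fin m) (Fin n) ℂ), Stable (A - B * F) →
      decay (A - B * F) ≤ 4 * n * Real.log (4 * n) * ‖A‖ ^ 2 * ‖X0 (A - B * F)‖) ∧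
    ∃ G : ℝ → ℝ, Filter.Tendsto G Filter.atTop Filter.atTop ∧
      ∀ (B : Matrix (Fin n) (Fin m) ℂ) (F : Matrix (Fin m) (Fin n) ℂ), Stable (A - B * F) →
        G (decay (A - B * F)) ≤ ‖X0 (A - B * F)‖ := by
  refine ⟨fun B F hM => main_bound hmn A B F hM, ?_⟩
  have hn : 0 < n := by omega
  have hn1 : (1 : ℝ) ≤ n := by exact_mod_cast hn
  have hlog : 0 < Real.log (4 * n) := Real.log_pos (by linarith)
  have hpos : 0 < 4 * n * Real.log (4 * n) * (‖A‖ ^ 2 + 1) := by positivity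
  refine ⟨fun x => x / (4 * n * Real.log (4 * n) * (‖A‖ ^ 2 + 1)),
    Filter.tendsto_id.atTop_div_const hpos, fun B F hM => ?_⟩
  have h1 := main_bound hmn A B F hM
  change decay (A - B * F) / (4 * n * Real.log (4 * n) * (‖A‖ ^ 2 + 1)) ≤ _
  rw [div_le_iff₀ hpos]
  have h2 : 0 ≤ 4 * n * Real.log (4 * n) * ‖X0 (A - B * F)‖ := by positivity
  nlinarith

end Pool.Agent.Results.MP_cf5fc4_an.CostLowerBound
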